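import Pool.Agent.D0H90.SM.Stm

/-!
# Module COMB of project SM: the combinatorial inequality
-/

set_option autoImplicit false

namespace Pool.Agent.D0H35.SM

open Finset Pool.Agent.D0H90.SM

universe u

variable {n d : ℕ}

/-- the exponent vector with given entries -/
def mkE (f : Fin n → ℕ) (h : ∑ l, f l = d) : Ex n d :=
  ⟨fun l => ⟨f l, by
    have := single_le_sum (f := f) (fun _ _ => Nat.zero_le _) (mem_univ l)
    omega⟩, h⟩

theorem mkE_val (f : Fin n → ℕ) (h : ∑ l, f l = d) (l : Fin n) : ((mkE f h).1 l : ℕ) = f l := rfl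

variable {K : Type u} [Field K]

theorem mon_mkE (f : Fin n → ℕ) (h : ∑ l, f l = d) (lam : Fin n → K) :
    mon (mkE f h) lam = ∏ l, lam l ^ f l := rfl

/-- `x_l x_p ^ b x_q ^ c` -/
def ff (l p q : Fin n) (b c : ℕ) (s : Fin n) : ℕ :=
  (if s = l then 1 else 0) + (if s = p then b else 0) + (if s = q then c else 0)

theorem sum_ff (l p q : Fin n) (b c : ℕ) : ∑ s, ff l p q b c s = 1 + b + c := by
  simp [ff, sum_add_distrib]

theorem prod_ff (l p q : Fin n) (b c : ℕ) (lam : Fin n → K) :
    ∏ s, lam s ^ ff l p q b c s = lam l * lam p ^ b * lam q ^ c := by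
  simp only [ff, pow_add, prod_mul_distrib]
  congr 1
  · congr 1
    · rw [Finset.prod_eq_single l]
      · simp
      · intro s _ hs
        simp [hs]
      · simp
    · rw [Finset.prod_eq_single p]
      · simp
      · intro s _ hs
        simp [hs]
      · simp
  · rw [Finset.prod_eq_single q]
    · simp
    · intro s _ hs
      simp [hs]
    · simp

open Classical in
/-- the number of the monomials with a value different from `t` -/
noncomputable def LL (n d : ℕ) (lam : Fin n → K) (t : K) : ℕ :=
  (univ.filter fun m : Ex n d => mon m lam ≠ t).card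

theorem exists_m {lam : Fin n → K} (hlam : ∀ i, lam i ≠ 0) {p q : Fin n} (hpq : lam p ≠ lam q)
    (hd : 2 ≤ d) (t : K) (l : Fin n) : ∃ m : Ex n d, mon m lam ≠ t ∧
      ∃ b c, b + c + 1 = d ∧ c ≤ 1 ∧ ∀ s, (m.1 s : ℕ) = ff l p q b c s := by
  by_cases h : lam l * lam p ^ (d - 1) * lam q ^ 0 = t
  · refine ⟨mkE (ff l p q (d - 2) 1) (by rw [sum_ff]; omega), ?_, d - 2, 1, by omega, le_rfl,
      fun s => rfl⟩
    rw [mon_mkE, prod_ff]
    intro h'
    apply hpq
    rw [← h'] at h
    have h1 : d - 1 = (d - 2) + 1 := by omega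
    rw [h1, pow_succ, pow_zero, mul_one, pow_one, ← mul_assoc] at h
    exact mul_left_cancel₀ (mul_ne_zero (hlam l) (pow_ne_zero _ (hlam p))) h
  · refine ⟨mkE (ff l p q (d - 1) 0) (by rw [sum_ff]; omega), ?_, d - 1, 0, by omega, by omega,
      fun s => rfl⟩
    rw [mon_mkE, prod_ff]
    exact h

theorem exists_m' {lam : Fin n → K} (hlam : ∀ i, lam i ≠ 0) {p q : Fin n} (hpq : lam p ≠ lam q)
    (hd : 3 ≤ d) (t : K) : ∃ m : Ex n d, mon m lam ≠ t ∧ 2 ≤ (m.1 q : ℕ) := by
  have hqp : q ≠ p := fun h => hpq (by rw [h])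
  by_cases h : lam p * lam p ^ 0 * lam q ^ (d - 1) = t
  · refine ⟨mkE (ff q p q 0 (d - 1)) (by rw [sum_ff]; omega), ?_, ?_⟩
    · rw [mon_mkE, prod_ff]
      intro h'
      apply hpq
      rw [← h', pow_zero, mul_one, mul_one] at h
      exact mul_right_cancel₀ (pow_ne_zero _ (hlam q)) h
    · rw [mkE_val]
      simp only [ff, if_true]
      omega
  · refine ⟨mkE (ff p p q 0 (d - 1)) (by rw [sum_ff]; omega), ?_, ?_⟩
    · rw [mon_mkE, prod_ff]
      exact h
    · rw [mkE_val]
      simp only [ff, if_true]
      omega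

theorem ff_inj {l l' p q : Fin n} (hpq : q ≠ p) (hl : l ≠ q) (hl' : l' ≠ q) {b c b' c' : ℕ}
    (h : b + c + 1 = b' + c' + 1) (he : ∀ s, ff l p q b c s = ff l' p q b' c' s) : l = l' := by
  have h1 := he q
  simp only [ff, if_neg hpq, if_neg hl.symm, if_neg hl'.symm, if_true, zero_add] at h1
  subst h1
  have h2 : b = b' := by omega
  subst h2
  by_contra h3
  have h4 := he l
  simp only [ff, if_true, if_neg h3] at h4
  omega

/-- at least `n - 1` monomials -/
theorem LL_ge {lam : Fin n → K} (hlam : ∀ i, lam i ≠ 0) {p q : Fin n} (hpq : lam p ≠ lam q)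
    (hd : 2 ≤ d) (t : K) : n - 1 ≤ LL n d lam t := by
  classical
  have hqp : q ≠ p := fun h => hpq (by rw [h])
  choose F h1 h2 using fun (l : Fin n) => exists_m hlam hpq hd t l
  have h3 : ((univ : Finset (Fin n)).erase q).card ≤ LL n d lam t := by
    refine card_le_card_of_injOn F (fun l hl => ?_) (fun l hl l' hl' h => ?_)
    · rw [mem_coe, mem_erase] at hl
      rw [mem_coe, mem_filter]
      exact ⟨mem_univ _, h1 l⟩
    · rw [mem_coe, mem_erase] at hl hl'
      obtain ⟨b, c, e1, -, e2⟩ := h2 l
      obtain ⟨b', c', e3, -, e4⟩ := h2 l'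
      refine ff_inj hqp hl.1 hl'.1 (by omega : b + c + 1 = b' + c' + 1) fun s => ?_
      rw [← e2, ← e4, h]
  rwa [card_erase_of_mem (mem_univ _), card_univ, Fintype.card_fin] at h3

/-- at least `n` monomials if `d ≥ 3` -/
theorem LL_ge3 {lam : Fin n → K} (hlam : ∀ i, lam i ≠ 0) {p q : Fin n} (hpq : lam p ≠ lam q)
    (hd : 3 ≤ d) (t : K) : n ≤ LL n d lam t := by
  classical
  have hqp : q ≠ p := fun h => hpq (by rw [h])
  obtain ⟨m, hm1, hm2⟩ := exists_m' (n := n) (d := d) hlam hpq hd t
  choose F h1 h2 using fun (l : Fin n) => exists_m hlam hpq (by omega : 2 ≤ d) t l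
  have hFq : ∀ l, l ≠ q → F l ≠ m := by
    intro l hl h
    obtain ⟨b, c, e1, e5, e2⟩ := h2 l
    have := e2 q
    rw [h] at this
    simp only [ff, if_neg hqp, if_neg hl.symm, if_true, zero_add] at this
    omega
  have h3 : (univ : Finset (Fin n)).card ≤ LL n d lam t := by
    refine card_le_card_of_injOn (fun l => if l = q then m else F l) (fun l _ => ?_)
      (fun l _ l' _ h => ?_)
    · rw [mem_coe, mem_filter]
      refine ⟨mem_univ _, ?_⟩
      dsimp only
      split_ifs with hl
      · exact hm1
      · exact h1 l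
    · dsimp only at h
      split_ifs at h with hl hl' hl'
      · rw [hl, hl']
      · exact absurd h.symm (hFq l' hl')
      · exact absurd h (hFq l hl)
      · obtain ⟨b, c, e1, -, e2⟩ := h2 l
        obtain ⟨b', c', e3, -, e4⟩ := h2 l'
        refine ff_inj hqp hl hl' (by omega : b + c + 1 = b' + c' + 1) fun s => ?_
        rw [← e2, ← e4, h]
  rwa [card_univ, Fintype.card_fin] at h3

/-- `d = 2`, different values -/
theorem LL_ge2 {lam : Fin n → K} (hlam : ∀ i, lam i ≠ 0) (hinj : Function.Injective lam)
    (hn : 3 ≤ n) (t : K) : n ≤ LL n 2 lam t := by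
  classical
  set S := (univ : Finset (Fin n × Fin n)).filter fun x => lam x.1 * lam x.2 ≠ t with hS
  have h1 : ((univ : Finset (Fin n × Fin n)).filter fun x => lam x.1 * lam x.2 = t).card ≤ n := by
    have : ((univ : Finset (Fin n × Fin n)).filter fun x => lam x.1 * lam x.2 = t).card ≤
        (univ : Finset (Fin n)).card := by
      refine card_le_card_of_injOn Prod.fst (fun _ _ => mem_coe.mpr (mem_univ _)) ?_
      intro x hx y hy hxy
      rw [mem_coe, mem_filter] at hx hy
      have h2 := hx.2.trans hy.2.symm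
      rw [hxy] at h2
      exact Prod.ext hxy (hinj (mul_left_cancel₀ (hlam _) h2))
    rwa [card_univ, Fintype.card_fin] at this
  have h2 := card_filter_add_card_filter_not (s := (univ : Finset (Fin n × Fin n)))
    (fun x => lam x.1 * lam x.2 = t)
  rw [card_univ, Fintype.card_prod, Fintype.card_fin] at h2
  have h3 : S.card ≤ 2 * LL n 2 lam t := by
    refine card_le_mul_card_image_of_maps_to
      (f := fun x : Fin n × Fin n => (mkE (ff x.1 x.2 x.2 1 0) (by rw [sum_ff]) : Ex n 2)) ?_ 2 ?_
    · intro x hx
      rw [hS, mem_filter] at hx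
      rw [mem_filter]
      refine ⟨mem_univ _, ?_⟩
      rw [mon_mkE, prod_ff, pow_one, pow_zero, mul_one]
      exact hx.2
    · intro m _
      by_cases hne : (S.filter fun x : Fin n × Fin n =>
        (mkE (ff x.1 x.2 x.2 1 0) (by rw [sum_ff]) : Ex n 2) = m).Nonempty
      · obtain ⟨x, hx⟩ := hne
        have h4 : (S.filter fun x : Fin n × Fin n =>
            (mkE (ff x.1 x.2 x.2 1 0) (by rw [sum_ff]) : Ex n 2) = m) ⊆ {x, (x.2, x.1)} := by
          intro y hy
          rw [mem_filter] at hx hy
          have h5 : ∀ s, ff x.1 x.2 x.2 1 0 s = ff y.1 y.2 y.2 1 0 s := by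
            intro s
            rw [← mkE_val (ff x.1 x.2 x.2 1 0) (by rw [sum_ff] : _ = 2) s,
              ← mkE_val (ff y.1 y.2 y.2 1 0) (by rw [sum_ff] : _ = 2) s, hx.2, hy.2]
          obtain ⟨a, b⟩ := x
          obtain ⟨a', b'⟩ := y
          have e1 := h5 a
          have e2 := h5 b
          have e3 := h5 a'
          have e4 := h5 b'
          simp only [ff, mem_insert, mem_singleton, Prod.mk.injEq] at e1 e2 e3 e4 ⊢
          by_cases c1 : a' = a
          · subst c1
            left
            refine ⟨rfl, ?_⟩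
            by_contra c2
            have c3 : ¬ b = b' := fun h => c2 h.symm
            simp [c3] at e2 e4
          · right
            by_cases c2 : a' = b
            · subst c2
              refine ⟨rfl, ?_⟩
              by_contra c3
              have c4 : ¬ a = b' := fun h => c3 h.symm
              have c5 : ¬ a = a' := fun h => c1 h.symm
              simp [c4, c5] at e1
            · simp only [c1, c2, if_false, if_true] at e3
              omega
        exact (card_le_card h4).trans card_le_two
      · rw [not_nonempty_iff_eq_empty] at hne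
        rw [hne, card_empty]
        omega
  have h4 : S.card + n ≥ n * n := by
    have h5 : S = (univ : Finset (Fin n × Fin n)).filter fun x => ¬ lam x.1 * lam x.2 = t := rfl
    rw [h5]
    omega
  have h5 : n * n ≥ 3 * n := Nat.mul_le_mul_right n hn
  omega

open Classical in
/-- **COMB.** -/
theorem t_COMB : S_COMB.{u} := by
  intro K _ n d hn hd lam hlam hne
  push Not at hne
  obtain ⟨p, q, hpq⟩ := hne
  have h1 : Fintype.card {p : Fin n × Fin n // lam p.1 ≠ lam p.2} =
      ∑ i, (univ.filter fun j => lam i ≠ lam j).card := by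
    rw [Fintype.card_subtype, card_filter, Fintype.sum_prod_type]
    exact sum_congr rfl fun i _ => by rw [card_filter]
  have h2 : Fintype.card {a : Cf n d // mon a.2 lam ≠ lam a.1} = ∑ i, LL n d lam (lam i) := by
    rw [Fintype.card_subtype, card_filter, Fintype.sum_prod_type]
    exact sum_congr rfl fun i _ => by rw [LL, card_filter]
  rw [h1, h2]
  have hr : ∀ i, (univ.filter fun j => lam i ≠ lam j).card + 1 ≤ n := by
    intro i
    have h3 : (univ.filter fun j => lam i ≠ lam j) ⊆ (univ : Finset (Fin n)).erase i := by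
      intro j hj
      rw [mem_filter] at hj
      rw [mem_erase]
      exact ⟨fun h => hj.2 (by rw [h]), mem_univ _⟩
    have h4 := card_le_card h3
    rw [card_erase_of_mem (mem_univ _), card_univ, Fintype.card_fin] at h4
    omega
  -- if always `n` monomials
  have hfin : (∀ t, n ≤ LL n d lam t) → ∑ i, (univ.filter fun j => lam i ≠ lam j).card + 2 ≤
      ∑ i, LL n d lam (lam i) := by
    intro h
    have h3 : ∑ i : Fin n, ((univ.filter fun j => lam i ≠ lam j).card + 1) ≤
        ∑ i, LL n d lam (lam i) := sum_le_sum fun i _ => (hr i).trans (h _)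
    rw [sum_add_distrib, sum_const, card_univ, Fintype.card_fin, smul_eq_mul, mul_one] at h3
    omega
  by_cases hd3 : 3 ≤ d
  · exact hfin fun t => LL_ge3 hlam hpq hd3 t
  have hd2 : d = 2 := by omega
  subst hd2
  by_cases hinj : Function.Injective lam
  · exact hfin fun t => LL_ge2 hlam hinj hn t
  · unfold Function.Injective at hinj
    push Not at hinj
    obtain ⟨a, b, hab, hab'⟩ := hinj
    have hr2 : ∀ i j, i ≠ j → lam i = lam j →
        (univ.filter fun j => lam i ≠ lam j).card + 2 ≤ n := by
      intro i j hij hl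
      have h3 : (univ.filter fun j => lam i ≠ lam j) ⊆ ((univ : Finset (Fin n)).erase i).erase j := by
        intro s hs
        rw [mem_filter] at hs
        rw [mem_erase, mem_erase]
        exact ⟨fun h => hs.2 (by rw [h, hl]), fun h => hs.2 (by rw [h]), mem_univ _⟩
      have h4 := card_le_card h3
      rw [card_erase_of_mem (mem_erase.mpr ⟨hij.symm, mem_univ _⟩),
        card_erase_of_mem (mem_univ _), card_univ, Fintype.card_fin] at h4
      omega
    have h3 : ∑ i : Fin n, ((univ.filter fun j => lam i ≠ lam j).card +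
        ((if i = a then 1 else 0) + (if i = b then 1 else 0))) ≤ ∑ i, LL n 2 lam (lam i) := by
      refine sum_le_sum fun i _ => ?_
      have h4 := LL_ge (d := 2) hlam hpq le_rfl (lam i)
      by_cases hia : i = a
      · have h5 := hr2 i b (by rw [hia]; exact hab') (by rw [hia]; exact hab)
        have h6 : i ≠ b := by rw [hia]; exact hab'
        rw [if_pos hia, if_neg h6]
        omega
      · by_cases hib : i = b
        · have h5 := hr2 i a (by rw [hib]; exact hab'.symm) (by rw [hib]; exact hab.symm)
          rw [if_neg hia, if_pos hib]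
          omega
        · have h5 := hr i
          rw [if_neg hia, if_neg hib]
          omega
    rw [sum_add_distrib, sum_add_distrib, sum_ite_eq', sum_ite_eq', if_pos (mem_univ _),
      if_pos (mem_univ _)] at h3
    exact h3

end Pool.Agent.D0H35.SM
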