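import Pool.Agent.D0H90.SM.Stm5

/-!
# Module LOW of project SM: the lower bound for the dimension
-/

set_option autoImplicit false

namespace Pool.Agent.D0H35.SM

open Pool.Agent.D0H90.SM
open MvPolynomial Matrix

universe u

/-- a rational point of affine space has height the dimension -/
theorem height_point {k : Type u} [Field k] [IsAlgClosed k] {σ : Type} [Fintype σ] (z : σ → k) :
    ((RingHom.ker (eval z : MvPolynomial σ k →+* k)).height : WithBot ℕ∞) = Fintype.card σ := by
  have hdim : ringKrullDim (MvPolynomial σ k) = (Fintype.card σ : WithBot ℕ∞) := by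
    rw [MvPolynomial.ringKrullDim_of_isNoetherianRing, ringKrullDim_eq_zero_of_field, zero_add,
      Nat.card_eq_fintype_card]
  have hfin : FiniteRingKrullDim (MvPolynomial σ k) := by
    rw [finiteRingKrullDim_iff_ne_bot_and_top, hdim]
    constructor
    · exact WithBot.natCast_ne_bot _
    · exact ne_of_lt (WithBot.coe_lt_coe.mpr (ENat.natCast_lt_top _))
  obtain ⟨p, hp, hph⟩ := Ideal.exists_isMaximal_height (R := MvPolynomial σ k)
  obtain ⟨x, rfl⟩ := isMaximal_iff_eq_vanishingIdeal_singleton.mp hp
  let f : MvPolynomial σ k →ₐ[k] MvPolynomial σ k := aeval fun i => X i + C (x i - z i)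
  let g : MvPolynomial σ k →ₐ[k] MvPolynomial σ k := aeval fun i => X i - C (x i - z i)
  let e : MvPolynomial σ k ≃ₐ[k] MvPolynomial σ k := AlgEquiv.ofAlgHom f g
    (by ext i : 1; simp [f, g, algebraMap_eq]) (by ext i : 1; simp [f, g, algebraMap_eq])
  have hev : ∀ P, eval z (e P) = eval x P := by
    intro P
    have : (eval z).comp (e : MvPolynomial σ k →+* MvPolynomial σ k) = eval x := by
      ext i
      · simp [e, f]
      · simp [e, f]
    exact RingHom.congr_fun this P
  have h1 : Ideal.comap (e.toRingEquiv : MvPolynomial σ k ≃+* MvPolynomial σ k)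
      (RingHom.ker (eval z : MvPolynomial σ k →+* k)) = vanishingIdeal k {x} := by
    ext P
    rw [Ideal.mem_comap, RingHom.mem_ker, mem_vanishingIdeal_iff]
    have : eval z (e.toRingEquiv P) = eval x P := hev P
    rw [this]
    simp [aeval_eq_eval]
  rw [← RingEquiv.height_comap e.toRingEquiv, h1, hph, hdim]

section
variable {n d : ℕ} {k : Type u} [Field k]

/-- the class of an element does not depend on the presentation -/
lemma indep {c : Cf n d → k} {𝔭 : Ideal (MvPolynomial (Rest n d) k)} [𝔭.IsPrime]
    (hle : 𝔭 ≤ RingHom.ker (eval (rest c) : MvPolynomial (Rest n d) k →+* k))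
    {F : Rat n d k} {P Q P' Q' : Pol n d k} (hQ : eval c Q ≠ 0)
    (h : F * algebraMap (Pol n d k) (Rat n d k) Q = algebraMap (Pol n d k) (Rat n d k) P)
    (h' : F * algebraMap (Pol n d k) (Rat n d k) Q' = algebraMap (Pol n d k) (Rat n d k) P')
    (hP : res c P ∈ 𝔭) : res c P' ∈ 𝔭 := by
  have hinj : Function.Injective (algebraMap (Pol n d k) (Rat n d k)) :=
    IsFractionRing.injective _ _
  have h1 : P' * Q = P * Q' := by
    apply hinj
    rw [map_mul, map_mul, ← h, ← h']
    ring
  have h2 : res c P' * res c Q = res c P * res c Q' := by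
    rw [← map_mul, ← map_mul, h1]
  have h3 : res c P' * res c Q ∈ 𝔭 := by
    rw [h2]
    exact Ideal.mul_mem_right _ _ hP
  rcases Ideal.IsPrime.mem_or_mem inferInstance h3 with h4 | h4
  · exact h4
  · exfalso
    have := hle h4
    rw [RingHom.mem_ker, eval_res] at this
    apply hQ
    rwa [glue_rest] at this

lemma num_mem {c : Cf n d → k} {F : Rat n d k} (hF : InvVan c F) {P Q : Pol n d k}
    (hQ : eval c Q ≠ 0)
    (h : F * algebraMap (Pol n d k) (Rat n d k) Q = algebraMap (Pol n d k) (Rat n d k) P) :
    eval c P = 0 := by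
  obtain ⟨P', Q', -, hQ', hP', h'⟩ := hF
  have hinj : Function.Injective (algebraMap (Pol n d k) (Rat n d k)) :=
    IsFractionRing.injective _ _
  have h1 : P' * Q = P * Q' := by
    apply hinj
    rw [map_mul, map_mul, ← h, ← h']
    ring
  have h2 := congrArg (eval c) h1
  rw [map_mul, map_mul, hP', zero_mul] at h2
  rcases mul_eq_zero.mp h2.symm with h3 | h3
  · exact h3
  · exact absurd h3 hQ'

end

theorem t_LOW : S_RAD.{u} → S_LOW.{u} := by
  intro hRAD k _ _ _ n d hn hd c hc1 hc2 hNoeth
  classical
  have := hNoeth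
  obtain ⟨s, hs, hcard⟩ := Ideal.exists_finset_card_eq_height_of_isNoetherianRing
    (IsLocalRing.maximalIdeal (locRing c))
  rw [← IsLocalRing.maximalIdeal_height_eq_ringKrullDim, ← hcard]
  set M : Ideal (MvPolynomial (Rest n d) k) :=
    RingHom.ker (eval (rest c) : MvPolynomial (Rest n d) k →+* k) with hM
  have hMprime : M.IsPrime := RingHom.ker_isPrime _
  have hheight : ((M.height : ℕ∞) : WithBot ℕ∞) = Fintype.card (Rest n d) := height_point (rest c)
  choose num den hinv hden hfrac using fun F : locRing c => F.2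
  set J : Finset (MvPolynomial (Rest n d) k) := s.image fun F => res c (num F) with hJ
  have hsm : ∀ F ∈ s, F ∈ maxId c := by
    intro F hF
    rw [maxId_eq]
    exact hs.1.2 (Ideal.subset_span hF)
  have hJM : Ideal.span (J : Set (MvPolynomial (Rest n d) k)) ≤ M := by
    rw [Ideal.span_le]
    intro f hf
    rw [hJ, Finset.coe_image] at hf
    obtain ⟨F, hF, rfl⟩ := hf
    show res c (num F) ∈ M
    rw [hM, RingHom.mem_ker, eval_res, glue_rest]
    exact num_mem (hsm F hF) (hden F) (hfrac F)
  have hmin : M ∈ (Ideal.span (J : Set (MvPolynomial (Rest n d) k))).minimalPrimes := by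
    refine ⟨⟨hMprime, hJM⟩, ?_⟩
    rintro 𝔭 ⟨hp, hJp⟩ hpM
    have := hp
    -- elements of the ideal generated by `s`
    have key1 : ∀ H : locRing c, H ∈ Ideal.span (s : Set (locRing c)) → res c (num H) ∈ 𝔭 := by
      intro H hH
      induction hH using Submodule.span_induction with
      | mem F hF =>
        apply hJp
        apply Ideal.subset_span
        rw [hJ, Finset.coe_image]
        exact ⟨F, hF, rfl⟩
      | zero =>
        refine indep (c := c) hpM (F := (0 : Rat n d k)) (P := 0) (Q := 1)
          (Q' := den (0 : locRing c)) (by simp) (by simp) ?_ (by simp)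
        exact hfrac 0
      | add F G _ _ hF hG =>
        refine indep (c := c) hpM (F := (F + G : locRing c).1) (P := num F * den G + num G * den F)
          (Q := den F * den G) (Q' := den (F + G)) ?_ ?_ (hfrac (F + G)) ?_
        · rw [map_mul]
          exact mul_ne_zero (hden F) (hden G)
        · have h1 := hfrac F
          have h2 := hfrac G
          simp only [map_add, map_mul]
          rw [← h1, ← h2]
          show (F.1 + G.1) * _ = _
          ring
        · rw [map_add, map_mul, map_mul]
          exact 𝔭.add_mem (Ideal.mul_mem_right _ _ hF) (Ideal.mul_mem_right _ _ hG)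
      | smul a F _ hF =>
        refine indep (c := c) hpM (F := (a • F : locRing c).1) (P := num a * num F)
          (Q := den a * den F) (Q' := den (a • F)) ?_ ?_ (hfrac (a • F)) ?_
        · rw [map_mul]
          exact mul_ne_zero (hden a) (hden F)
        · have h1 := hfrac a
          have h2 := hfrac F
          simp only [map_mul]
          rw [← h1, ← h2]
          show (a.1 * F.1) * _ = _
          ring
        · rw [map_mul]
          exact Ideal.mul_mem_left _ _ hF
    -- the radical
    have key2 : ∀ P Q : Pol n d k, Invt P Q → eval c Q ≠ 0 → eval c P = 0 → res c P ∈ 𝔭 := by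
      intro P Q hPQ hQ hP
      have hinj : Function.Injective (algebraMap (Pol n d k) (Rat n d k)) :=
        IsFractionRing.injective _ _
      have hQ0 : algebraMap (Pol n d k) (Rat n d k) Q ≠ 0 := by
        intro h0
        rw [← map_zero (algebraMap (Pol n d k) (Rat n d k))] at h0
        rw [hinj h0] at hQ
        simp at hQ
      set G0 : Rat n d k := algebraMap (Pol n d k) (Rat n d k) P /
        algebraMap (Pol n d k) (Rat n d k) Q with hG0
      have hG1 : G0 * algebraMap (Pol n d k) (Rat n d k) Q = algebraMap (Pol n d k) (Rat n d k) P :=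
        div_mul_cancel₀ _ hQ0
      let G : locRing c := ⟨G0, P, Q, hPQ, hQ, hG1⟩
      have hGm : G ∈ maxId c := ⟨P, Q, hPQ, hQ, hP, hG1⟩
      have hrad : G ∈ (Ideal.span (s : Set (locRing c))).radical := by
        rw [Ideal.radical_eq_sInf, Submodule.mem_sInf]
        rintro q ⟨hq1, hq2⟩
        have h3 : q ≤ IsLocalRing.maximalIdeal (locRing c) :=
          IsLocalRing.le_maximalIdeal hq2.ne_top
        have h4 := hs.2 ⟨hq2, hq1⟩ h3
        apply h4
        rw [← maxId_eq]
        exact hGm
      obtain ⟨m, hm⟩ := hrad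
      have h5 := key1 _ hm
      have h6 : res c (P ^ m) ∈ 𝔭 := by
        refine indep (c := c) hpM (F := (G ^ m : locRing c).1) (P := num (G ^ m))
          (Q := den (G ^ m)) (Q' := Q ^ m) (hden (G ^ m)) (hfrac (G ^ m)) ?_ h5
        rw [map_pow, map_pow, ← hG1, mul_pow]
        rfl
      rw [map_pow] at h6
      exact hp.mem_of_pow_mem m h6
    -- coordinates
    have key3 : ∀ ρ : Rest n d, (X ρ - C (rest c ρ) : MvPolynomial (Rest n d) k) ∈ 𝔭 := by
      intro ρ
      obtain ⟨e, t, S, P, Q, R, hS, hPQ, hrel⟩ := hRAD k n d hn hd c hc1 hc2 ρ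
      have h7 : S * (X ρ - C (rest c ρ)) ^ e ∈ 𝔭 := by
        rw [hrel]
        refine Ideal.sum_mem _ fun j _ => ?_
        exact Ideal.mul_mem_left _ _ (key2 (P j) (Q j) (hPQ j).1 (hPQ j).2.1 (hPQ j).2.2)
      rcases hp.mem_or_mem h7 with h8 | h8
      · exfalso
        exact hS (hpM h8)
      · exact hp.mem_of_pow_mem e h8
    -- `M ≤ 𝔭`
    have key4 : (Ideal.Quotient.mk 𝔭).comp (C.comp (eval (rest c))) = Ideal.Quotient.mk 𝔭 := by
      ext i
      · simp
      · simp only [RingHom.coe_comp, Function.comp_apply, eval_X]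
        have := key3 i
        rw [← Ideal.Quotient.eq_zero_iff_mem, map_sub, sub_eq_zero] at this
        exact this.symm
    intro f hf
    rw [hM, RingHom.mem_ker] at hf
    have := RingHom.congr_fun key4 f
    simp only [RingHom.coe_comp, Function.comp_apply, hf, map_zero] at this
    rw [← Ideal.Quotient.eq_zero_iff_mem]
    exact this.symm
  have h1 := Ideal.height_le_card_of_mem_minimalPrimes_span_finset hmin
  rw [← hheight]
  have h2 : (J.card : ℕ∞) ≤ (s.card : ℕ∞) := by
    exact_mod_cast Finset.card_image_le
  exact WithBot.coe_le_coe.mpr (h1.trans h2)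

end Pool.Agent.D0H35.SM

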