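import Pool.Agent.D0H90.SM.Stm

/-!
# Module NDG of project SM: Nullstellensatz and Nakayama
-/

set_option autoImplicit false

namespace Pool.Agent.D0H35.SM

open MvPolynomial Pool.Agent.D0H90.SM

universe u

section

variable {n d : ℕ}

/-- the forms as polynomials -/
noncomputable def fo {R : Type*} [CommRing R] (c : Cf n d → R) (j : Fin n) :
    MvPolynomial (Fin n) R := ev (fun b => (C (c b) : MvPolynomial (Fin n) R)) X j

theorem eval_fo {R : Type*} [CommRing R] (c : Cf n d → R) (j : Fin n) (x : Fin n → R) :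
    eval x (fo c j) = ev c x j := by
  simp [fo, ev, mon, map_sum, map_mul, map_prod]

theorem map_fo {R S : Type*} [CommRing R] [CommRing S] (φ : R →+* S) (c : Cf n d → R)
    (j : Fin n) : map φ (fo c j) = fo (fun b => φ (c b)) j := by
  simp [fo, ev, mon, map_sum, map_mul, map_prod]

theorem hom_fo {R : Type*} [CommRing R] (c : Cf n d → R) (j : Fin n) :
    (fo c j).IsHomogeneous d := by
  unfold fo ev
  refine IsHomogeneous.sum _ _ _ fun m _ => ?_
  have h1 : (mon m (X : Fin n → MvPolynomial (Fin n) R)).IsHomogeneous d := by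
    unfold mon
    have h2 := IsHomogeneous.prod (Finset.univ : Finset (Fin n))
      (fun l => (X l : MvPolynomial (Fin n) R) ^ (m.1 l : ℕ)) (fun l => (m.1 l : ℕ))
      fun l _ => isHomogeneous_X_pow l _
    rw [m.2] at h2
    exact h2
  have h3 := (isHomogeneous_C (Fin n) (c (j, m))).mul h1
  rwa [zero_add] at h3

/-- the ideal of the forms -/
noncomputable def II {R : Type*} [CommRing R] (c : Cf n d → R) : Ideal (MvPolynomial (Fin n) R) :=
  Ideal.span (Set.range (fo c))

/-- over the algebraically closed field -/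
theorem pow_mem {k : Type u} [Field k] [IsAlgClosed k] (c : Cf n d → k) (hc : Nondeg c) :
    ∃ M : ℕ, 0 < M ∧ ∀ l : Fin n, (X l : MvPolynomial (Fin n) k) ^ M ∈ II c := by
  have h1 : ∀ l : Fin n, ∃ M : ℕ, (X l : MvPolynomial (Fin n) k) ^ M ∈ II c := by
    intro l
    have h2 : (X l : MvPolynomial (Fin n) k) ∈ (II c).radical := by
      rw [← vanishingIdeal_zeroLocus_eq_radical (K := k), mem_vanishingIdeal_iff]
      intro x hx
      have h3 : x = 0 := by
        refine hc x (funext fun j => ?_)
        have h4 := (mem_zeroLocus_iff.mp hx) (fo c j) (Ideal.subset_span ⟨j, rfl⟩)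
        rw [← eval_fo]
        simpa [aeval_def] using h4
      rw [h3]
      simp
    exact h2
  choose M hM using h1
  refine ⟨∑ l, M l + 1, by omega, fun l => ?_⟩
  have h2 : M l ≤ ∑ l, M l + 1 :=
    (Finset.single_le_sum (f := M) (fun _ _ => Nat.zero_le _) (Finset.mem_univ l)).trans (by omega)
  obtain ⟨r, hr⟩ := Nat.exists_eq_add_of_le h2
  rw [hr, pow_add]
  exact Ideal.mul_mem_right _ _ (hM l)

theorem mon_mem {k : Type u} [Field k] (c : Cf n d → k) {M : ℕ} (hM : 0 < M) (hn : 0 < n)
    (h : ∀ l : Fin n, (X l : MvPolynomial (Fin n) k) ^ M ∈ II c) (m : Fin n →₀ ℕ)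
    (hm : ∑ l, m l = n * M) : (monomial m (1 : k)) ∈ II c := by
  have h1 : ∃ l, M ≤ m l := by
    by_contra hcon
    push Not at hcon
    have h2 : ∑ l, m l < ∑ _l : Fin n, M := Finset.sum_lt_sum_of_nonempty
      ⟨⟨0, hn⟩, Finset.mem_univ _⟩ fun l _ => hcon l
    rw [Finset.sum_const, Finset.card_univ, Fintype.card_fin, smul_eq_mul] at h2
    omega
  obtain ⟨l, hl⟩ := h1
  have h2 : monomial m (1 : k) = X l ^ M * monomial (m - Finsupp.single l M) 1 := by
    have h3 : m = Finsupp.single l M + (m - Finsupp.single l M) := by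
      ext s
      rw [Finsupp.add_apply, Finsupp.tsub_apply]
      by_cases hs : s = l
      · subst hs
        rw [Finsupp.single_eq_same]
        omega
      · rw [Finsupp.single_eq_of_ne hs]
        omega
    rw [X_pow_eq_monomial, monomial_mul, one_mul, ← h3]
  rw [h2]
  exact Ideal.mul_mem_right _ _ (h l)

attribute [local instance] MvPolynomial.gradedAlgebra

theorem comp_mem {R : Type*} [CommRing R] (c : Cf n d → R) (D : ℕ)
    {P : MvPolynomial (Fin n) R} (hP : P ∈ II c) : homogeneousComponent D P ∈ II c := by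
  have h1 : (II c).IsHomogeneous (homogeneousSubmodule (Fin n) R) := by
    refine Ideal.homogeneous_span _ _ ?_
    rintro _ ⟨j, rfl⟩
    exact ⟨d, hom_fo c j⟩
  exact (mem_iff_homogeneousComponent_mem h1 P).mp hP D

end

/-- **NDG.** -/
theorem t_NDG : S_NDG.{u} := by
  classical
  intro O k _ _ _ _ π hπ n d c hc
  rcases Nat.eq_zero_or_pos n with hn | hn
  · subst hn
    exact ⟨0, fun l => l.elim0⟩
  obtain ⟨M, hM, hpow⟩ := pow_mem (fun a => π (c a)) hc
  set D := n * M with hD
  -- the module of the forms of degree `D`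
  set g : Ex n D → MvPolynomial (Fin n) O := fun e => monomial (toF e) 1 with hg
  set H : Submodule O (MvPolynomial (Fin n) O) := Submodule.span O (Set.range g) with hH
  have hHfg : H.FG := Submodule.fg_span (Set.finite_range g)
  have hmem : ∀ m : Fin n →₀ ℕ, m.degree = D → (monomial m (1 : O)) ∈ H := by
    intro m hm
    have h1 : ∑ l, m l = D := by
      rw [← hm, Finsupp.degree_eq_sum]
    have h2 : ∀ l, m l < D + 1 := fun l => by
      have := Finset.single_le_sum (f := fun l => m l) (fun _ _ => Nat.zero_le _)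
        (Finset.mem_univ l)
      omega
    have h3 : toF (⟨fun l => ⟨m l, h2 l⟩, h1⟩ : Ex n D) = m := by
      ext s
      rfl
    refine Submodule.subset_span ⟨⟨fun l => ⟨m l, h2 l⟩, h1⟩, ?_⟩
    rw [hg]
    dsimp only
    rw [h3]
  have hker : ∀ a : O, π a = 0 → a ∈ IsLocalRing.maximalIdeal O := by
    intro a ha
    rw [IsLocalRing.mem_maximalIdeal, mem_nonunits_iff]
    intro hu
    have := hu.map π
    rw [ha] at this
    exact not_isUnit_zero this
  have hle : H ≤ (II c).restrictScalars O ⊔ IsLocalRing.maximalIdeal O • H := by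
    rw [hH, Submodule.span_le, ← hH]
    rintro _ ⟨e, rfl⟩
    have he : ∑ l, toF e l = n * M := e.2
    have h1 := mon_mem (fun a => π (c a)) hM hn hpow (toF e) he
    obtain ⟨G, hG⟩ := (Ideal.mem_span_range_iff_exists_fun).mp h1
    choose G' hG' using fun j => map_surjective π hπ (G j)
    set Q := ∑ j, G' j * fo c j with hQ
    set P := monomial (toF e) (1 : O) - Q with hP
    have h2 : map π P = 0 := by
      rw [hP, map_sub, hQ, map_sum]
      simp only [map_mul, hG', map_fo, map_monomial, map_one]
      rw [hG, sub_self]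
    have hQI : homogeneousComponent D Q ∈ II c := by
      refine comp_mem c D ?_
      rw [hQ]
      exact Ideal.sum_mem _ fun j _ => Ideal.mul_mem_left _ _ (Ideal.subset_span ⟨j, rfl⟩)
    have h3 : g e = homogeneousComponent D Q + homogeneousComponent D P := by
      rw [← map_add, hP, add_sub_cancel]
      have h4 : monomial (toF e) (1 : O) ∈ homogeneousSubmodule (Fin n) O D := by
        rw [mem_homogeneousSubmodule]
        refine isHomogeneous_monomial _ ?_
        rw [Finsupp.degree_eq_sum]
        exact he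
      rw [homogeneousComponent_of_mem h4, if_pos rfl]
    rw [SetLike.mem_coe, h3]
    refine Submodule.add_mem_sup hQI ?_
    rw [homogeneousComponent_apply]
    refine Submodule.sum_mem _ fun m hm => ?_
    rw [Finset.mem_filter] at hm
    have h4 : monomial m (coeff m P) = coeff m P • monomial m (1 : O) := by
      rw [smul_monomial, smul_eq_mul, mul_one]
    rw [h4]
    refine Submodule.smul_mem_smul (hker _ ?_) (hmem m hm.2)
    rw [← coeff_map, h2, coeff_zero]
  have hnak := Submodule.le_of_le_smul_of_le_jacobson_bot hHfg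
    (IsLocalRing.jacobson_eq_maximalIdeal ⊥ bot_ne_top).ge hle
  refine ⟨D, fun l => ?_⟩
  rw [X_pow_eq_monomial]
  have h1 : (monomial (Finsupp.single l D) (1 : O)) ∈ H := hmem _ (by simp)
  exact hnak h1

end Pool.Agent.D0H35.SM
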